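import Mathlib

/-! MP_633541_co: the Oberwolfach problem OP(3, s, s), general part. -/

namespace Pool.Agent.X239.OP

open SimpleGraph

/-- `C_3 ⊔ C_s ⊔ C_s`. -/
abbrev G0 (s : ℕ) : SimpleGraph (Fin 3 ⊕ (Fin s ⊕ Fin s)) :=
  cycleGraph 3 ⊕g (cycleGraph s ⊕g cycleGraph s)

/-- `OP(3, s, s)` has a solution: the edges of the complete graph on `2s+3` vertices are
partitioned into `s+1` graphs, each isomorphic to `C_3 ⊔ C_s ⊔ C_s` (hence a spanning 2-regular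
graph). -/
def Solvable (s : ℕ) : Prop :=
  ∃ F : Fin (s + 1) → SimpleGraph (Fin (2 * s + 3)),
    (∀ i, Nonempty (F i ≃g G0 s)) ∧ ∀ u v, u ≠ v → ∃! i, (F i).Adj u v

/-- successor in `Fin n` -/
def nx {n : ℕ} (x : Fin n) : Fin n := ⟨(x.val + 1) % n, Nat.mod_lt _ (by have := x.2; omega)⟩

theorem cyc_adj {s : ℕ} (hs : 3 ≤ s) (u v : Fin s) :
    (cycleGraph s).Adj u v ↔ v = nx u ∨ u = nx v := by
  obtain ⟨n, rfl⟩ : ∃ n, s = n + 2 := ⟨s - 2, by omega⟩
  rw [cycleGraph_adj]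
  have h1 : ∀ x : Fin (n + 2), nx x = x + 1 := by
    intro x
    ext
    simp [nx, Fin.val_add]
  rw [h1, h1]
  rw [sub_eq_iff_eq_add, sub_eq_iff_eq_add, add_comm 1 v, add_comm 1 u]
  exact or_comm

/-- successor in the three cycles -/
def nxt {s : ℕ} : Fin 3 ⊕ (Fin s ⊕ Fin s) → Fin 3 ⊕ (Fin s ⊕ Fin s)
  | .inl x => .inl (nx x)
  | .inr (.inl x) => .inr (.inl (nx x))
  | .inr (.inr x) => .inr (.inr (nx x))

theorem G0_adj {s : ℕ} (hs : 3 ≤ s) (u v : Fin 3 ⊕ (Fin s ⊕ Fin s)) :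
    (G0 s).Adj u v ↔ v = nxt u ∨ u = nxt v := by
  rcases u with u | u | u <;> rcases v with v | v | v <;>
    simp [G0, nxt, cyc_adj hs, cyc_adj (le_refl 3)]

theorem op_of_cover (s : ℕ) (hs : 3 ≤ s) {V ι : Type} [Fintype V] [Fintype ι] [DecidableEq V]
    (hV : Fintype.card V = 2 * s + 3) (hι : Fintype.card ι = s + 1)
    (e : ι → Fin 3 ⊕ (Fin s ⊕ Fin s) → V) (hsurj : ∀ i, Function.Surjective (e i))
    (hcov : ∀ u v, u ≠ v → ∃ i w, (e i w = u ∧ e i (nxt w) = v) ∨ (e i w = v ∧ e i (nxt w) = u)) :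
    Solvable s := by
  classical
  have hW : Fintype.card (Fin 3 ⊕ (Fin s ⊕ Fin s)) = 2 * s + 3 := by simp; omega
  have hbij : ∀ i, Function.Bijective (e i) := fun i =>
    (Fintype.bijective_iff_surjective_and_card _).2 ⟨hsurj i, by rw [hW, hV]⟩
  let ee : ι → (Fin 3 ⊕ (Fin s ⊕ Fin s)) ≃ V := fun i => Equiv.ofBijective (e i) (hbij i)
  -- `nxt` has no fixed points
  have hnx : ∀ w : Fin 3 ⊕ (Fin s ⊕ Fin s), w ≠ nxt w := by
    intro w h
    have := (G0_adj hs w w).2 (Or.inl h)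
    exact (G0 s).irrefl this
  let P := {p : V × V // p.1 ≠ p.2}
  have hP : Fintype.card P = (2 * s + 3) * (2 * s + 2) := by
    have h1 : Fintype.card {p : V × V // ¬ p.1 = p.2} = Fintype.card (V × V) -
        Fintype.card {p : V × V // p.1 = p.2} := Fintype.card_subtype_compl _
    have h2 : Fintype.card {p : V × V // p.1 = p.2} = Fintype.card V := by
      refine Fintype.card_congr ⟨fun p => p.1.1, fun v => ⟨(v, v), rfl⟩, ?_, ?_⟩
      · rintro ⟨⟨a, b⟩, h⟩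
        have h' : a = b := h
        subst h'
        rfl
      · intro v; rfl
    have h3 : Fintype.card P = Fintype.card {p : V × V // ¬ p.1 = p.2} := rfl
    rw [h3, h1, h2, Fintype.card_prod, hV]
    have : (2 * s + 3) * (2 * s + 3) = (2 * s + 3) * (2 * s + 2) + (2 * s + 3) := by ring
    omega
  let f : ι × (Fin 3 ⊕ (Fin s ⊕ Fin s)) × Bool → P := fun q =>
    if q.2.2 then ⟨(e q.1 q.2.1, e q.1 (nxt q.2.1)), fun h => hnx _ ((hbij q.1).1 h)⟩
    else ⟨(e q.1 (nxt q.2.1), e q.1 q.2.1), fun h => hnx _ ((hbij q.1).1 h.symm)⟩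
  have hfs : Function.Surjective f := by
    rintro ⟨⟨u, v⟩, huv⟩
    obtain ⟨i, w, ⟨h1, h2⟩ | ⟨h1, h2⟩⟩ := hcov u v huv
    · exact ⟨(i, w, true), by simp [f, h1, h2]⟩
    · exact ⟨(i, w, false), by simp [f, h1, h2]⟩
  have hfb : Function.Bijective f := by
    refine (Fintype.bijective_iff_surjective_and_card _).2 ⟨hfs, ?_⟩
    rw [hP, Fintype.card_prod, Fintype.card_prod, hι, hW, Fintype.card_bool]
    ring
  -- transfer to `Fin`
  let eV : V ≃ Fin (2 * s + 3) := Fintype.equivFinOfCardEq hV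
  let eI : ι ≃ Fin (s + 1) := Fintype.equivFinOfCardEq hι
  refine ⟨fun i => (G0 s).map (((ee (eI.symm i)).trans eV).toEmbedding), ?_, ?_⟩
  · intro i
    exact ⟨(Iso.map ((ee (eI.symm i)).trans eV) (G0 s)).symm⟩
  · have key : ∀ (i : ι) (u v : Fin (2 * s + 3)),
        ((G0 s).map (((ee i).trans eV).toEmbedding)).Adj u v ↔
        ∃ w : Fin 3 ⊕ (Fin s ⊕ Fin s), (e i w = eV.symm u ∧ e i (nxt w) = eV.symm v) ∨
          (e i w = eV.symm v ∧ e i (nxt w) = eV.symm u) := by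
      intro i u v
      rw [SimpleGraph.map_adj]
      constructor
      · rintro ⟨a, b, hab, rfl, rfl⟩
        have ha : ∀ x, eV.symm (((ee i).trans eV).toEmbedding x) = e i x := by
          intro x
          simp [ee]
        rw [ha, ha]
        rcases (G0_adj hs a b).1 hab with h | h
        · exact ⟨a, Or.inl ⟨rfl, by rw [h]⟩⟩
        · exact ⟨b, Or.inr ⟨rfl, by rw [h]⟩⟩
      · rintro ⟨w, ⟨h1, h2⟩ | ⟨h1, h2⟩⟩
        · refine ⟨w, nxt w, (G0_adj hs _ _).2 (Or.inl rfl), ?_, ?_⟩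
          · simp [ee, h1]
          · simp [ee, h2]
        · refine ⟨nxt w, w, (G0_adj hs _ _).2 (Or.inr rfl), ?_, ?_⟩
          · simp [ee, h2]
          · simp [ee, h1]
    intro u v huv
    have huv' : eV.symm u ≠ eV.symm v := fun h => huv (eV.symm.injective h)
    obtain ⟨i, w, h⟩ := hcov _ _ huv'
    refine ⟨eI i, ?_, ?_⟩
    · show ((G0 s).map (((ee (eI.symm (eI i))).trans eV).toEmbedding)).Adj u v
      rw [eI.symm_apply_apply, key]
      exact ⟨w, h⟩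
    · intro j hj
      have hj' : ((G0 s).map (((ee (eI.symm j)).trans eV).toEmbedding)).Adj u v := hj
      rw [key] at hj'
      obtain ⟨w', h'⟩ := hj'
      have hf : ∀ (i : ι) (w : Fin 3 ⊕ (Fin s ⊕ Fin s)),
          ((e i w = eV.symm u ∧ e i (nxt w) = eV.symm v) ∨
          (e i w = eV.symm v ∧ e i (nxt w) = eV.symm u)) →
          ∃ b, f (i, w, b) = ⟨(eV.symm u, eV.symm v), huv'⟩ := by
        rintro i w (⟨h1, h2⟩ | ⟨h1, h2⟩)
        · exact ⟨true, by simp [f, h1, h2]⟩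
        · exact ⟨false, by simp [f, h1, h2]⟩
      obtain ⟨b, hb⟩ := hf i w h
      obtain ⟨b', hb'⟩ := hf (eI.symm j) w' h'
      have := hfb.1 (hb'.trans hb.symm)
      have h1 : eI.symm j = i := congrArg Prod.fst this
      rw [← h1, eI.apply_symm_apply]

/-- The same with three closed sequences. -/
theorem op_of_seq (s : ℕ) (hs : 3 ≤ s) {V ι : Type} [Fintype V] [Fintype ι] [DecidableEq V]
    (hV : Fintype.card V = 2 * s + 3) (hι : Fintype.card ι = s + 1)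
    (a b c : ι → ℕ → V)
    (ha : ∀ i, a i 3 = a i 0) (hb : ∀ i, b i s = b i 0) (hc : ∀ i, c i s = c i 0)
    (hsurj : ∀ i v, (∃ t < 3, a i t = v) ∨ (∃ t < s, b i t = v) ∨ (∃ t < s, c i t = v))
    (hcov : ∀ u v, u ≠ v → ∃ i, (∃ t < 3, (a i t = u ∧ a i (t + 1) = v) ∨
        (a i t = v ∧ a i (t + 1) = u)) ∨
      (∃ t < s, (b i t = u ∧ b i (t + 1) = v) ∨ (b i t = v ∧ b i (t + 1) = u)) ∨
      (∃ t < s, (c i t = u ∧ c i (t + 1) = v) ∨ (c i t = v ∧ c i (t + 1) = u))) :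
    Solvable s := by
  have hmod : ∀ (n : ℕ) (q : ℕ → V) (hq : q n = q 0) (t : ℕ) (ht : t < n),
      q ((t + 1) % n) = q (t + 1) := by
    intro n q hq t ht
    rcases Nat.lt_or_ge (t + 1) n with h | h
    · rw [Nat.mod_eq_of_lt h]
    · have : t + 1 = n := by omega
      rw [this, Nat.mod_self, hq]
  refine op_of_cover s hs hV hι
    (fun i w => Sum.elim (fun x => a i x.val) (Sum.elim (fun x => b i x.val) (fun x => c i x.val)) w)
    ?_ ?_
  · intro i v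
    rcases hsurj i v with ⟨t, ht, h⟩ | ⟨t, ht, h⟩ | ⟨t, ht, h⟩
    · exact ⟨.inl ⟨t, ht⟩, h⟩
    · exact ⟨.inr (.inl ⟨t, ht⟩), h⟩
    · exact ⟨.inr (.inr ⟨t, ht⟩), h⟩
  · intro u v huv
    obtain ⟨i, ⟨t, ht, h⟩ | ⟨t, ht, h⟩ | ⟨t, ht, h⟩⟩ := hcov u v huv
    · refine ⟨i, .inl ⟨t, ht⟩, ?_⟩
      simp only [nxt, nx, Sum.elim_inl]
      rw [hmod 3 (a i) (ha i) t ht]
      exact h
    · refine ⟨i, .inr (.inl ⟨t, ht⟩), ?_⟩
      simp only [nxt, nx, Sum.elim_inl, Sum.elim_inr]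
      rw [hmod s (b i) (hb i) t ht]
      exact h
    · refine ⟨i, .inr (.inr ⟨t, ht⟩), ?_⟩
      simp only [nxt, nx, Sum.elim_inr]
      rw [hmod s (c i) (hc i) t ht]
      exact h

end Pool.Agent.X239.OP
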