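import Pool.Agent.X239.OP.Rot

/-! MP_633541_co: the three explicit families. -/

namespace Pool.Agent.X239.OP

variable {s : ℕ} {A B C : ℕ → N} {x y : N}

theorem rB (t : ℕ) (ht : t + 1 < s) (h1 : B t = x) (h2 : B (t + 1) = y) :
    R s A B C x y ∧ R s A B C y x := by
  have : Con s B x y := Or.inl ⟨t, ht, h1, h2⟩
  exact ⟨Or.inr (Or.inr (Or.inl this)), Or.inr (Or.inr (Or.inr (Or.inl this)))⟩

theorem rC (t : ℕ) (ht : t + 1 < s) (h1 : C t = x) (h2 : C (t + 1) = y) :
    R s A B C x y ∧ R s A B C y x := by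
  have : Con s C x y := Or.inl ⟨t, ht, h1, h2⟩
  exact ⟨Or.inr (Or.inr (Or.inr (Or.inr (Or.inl this)))),
    Or.inr (Or.inr (Or.inr (Or.inr (Or.inr this))))⟩

theorem rB0 (h1 : B (s - 1) = x) (h2 : B 0 = y) : R s A B C x y ∧ R s A B C y x := by
  have : Con s B x y := Or.inr ⟨h1, h2⟩
  exact ⟨Or.inr (Or.inr (Or.inl this)), Or.inr (Or.inr (Or.inr (Or.inl this)))⟩

theorem rC0 (h1 : C (s - 1) = x) (h2 : C 0 = y) : R s A B C x y ∧ R s A B C y x := by
  have : Con s C x y := Or.inr ⟨h1, h2⟩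
  exact ⟨Or.inr (Or.inr (Or.inr (Or.inr (Or.inl this)))),
    Or.inr (Or.inr (Or.inr (Or.inr (Or.inr this))))⟩

theorem rA (a b c : N) : R s (tri a b c) B C a b ∧ R s (tri a b c) B C a c ∧
    R s (tri a b c) B C b c := by
  refine ⟨Or.inl (Or.inl ⟨0, by norm_num, rfl, rfl⟩), Or.inr (Or.inl (Or.inr ⟨rfl, rfl⟩)),
    Or.inl (Or.inl ⟨1, by norm_num, rfl, rfl⟩)⟩

theorem oA (a b c : N) : Occ s (tri a b c) B C a ∧ Occ s (tri a b c) B C b ∧
    Occ s (tri a b c) B C c :=
  ⟨Or.inl ⟨0, by norm_num, rfl⟩, Or.inl ⟨1, by norm_num, rfl⟩, Or.inl ⟨2, by norm_num, rfl⟩⟩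

theorem oB (t : ℕ) (ht : t < s) (h1 : B t = x) : Occ s A B C x := Or.inr (Or.inl ⟨t, ht, h1⟩)

theorem oC (t : ℕ) (ht : t < s) (h1 : C t = x) : Occ s A B C x := Or.inr (Or.inr ⟨t, ht, h1⟩)

/-! ### `s = 4 u` -/

def b1 (u t : ℕ) : N :=
  if t < 2 * u then (if t % 2 = 0 then .inr (2 * u - 1 - t / 2, false) else .inr (t / 2, false))
  else (if t % 2 = 0 then .inr (u - 1 - (t - 2 * u) / 2, true)
    else .inr (u + 1 + (t - 2 * u) / 2, true))

def c1 (u t : ℕ) : N :=
  if t < 2 * u then (if t % 2 = 0 then .inr (2 * u + t / 2, false)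
    else .inr (4 * u - t / 2, true))
  else (if t % 2 = 0 then .inr (3 * u - (t - 2 * u) / 2, true)
    else .inr (3 * u + 1 + (t - 2 * u) / 2, false))

section
variable {u t x : ℕ}

theorem b1_0 (j : ℕ) (ht : t = 2 * j) (hj : j < u) (hx : x + j + 1 = 2 * u) :
    b1 u t = .inr (x, false) := by
  unfold b1
  rw [if_pos (by omega), if_pos (by omega)]
  congr 2
  omega

theorem b1_1 (j : ℕ) (ht : t = 2 * j + 1) (hj : j < u) (hx : x = j) :
    b1 u t = .inr (x, false) := by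
  unfold b1
  rw [if_pos (by omega), if_neg (by omega)]
  congr 2
  omega

theorem b1_2 (j : ℕ) (ht : t = 2 * u + 2 * j) (hj : j < u) (hx : x + j + 1 = u) :
    b1 u t = .inr (x, true) := by
  unfold b1
  rw [if_neg (by omega), if_pos (by omega)]
  congr 2
  omega

theorem b1_3 (j : ℕ) (ht : t = 2 * u + 2 * j + 1) (hj : j < u) (hx : x = u + 1 + j) :
    b1 u t = .inr (x, true) := by
  unfold b1
  rw [if_neg (by omega), if_neg (by omega)]
  congr 2
  omega

theorem c1_0 (j : ℕ) (ht : t = 2 * j) (hj : j < u) (hx : x = 2 * u + j) :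
    c1 u t = .inr (x, false) := by
  unfold c1
  rw [if_pos (by omega), if_pos (by omega)]
  congr 2
  omega

theorem c1_1 (j : ℕ) (ht : t = 2 * j + 1) (hj : j < u) (hx : x + j = 4 * u) :
    c1 u t = .inr (x, true) := by
  unfold c1
  rw [if_pos (by omega), if_neg (by omega)]
  congr 2
  omega

theorem c1_2 (j : ℕ) (ht : t = 2 * u + 2 * j) (hj : j < u) (hx : x + j = 3 * u) :
    c1 u t = .inr (x, true) := by
  unfold c1
  rw [if_neg (by omega), if_pos (by omega)]
  congr 2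
  omega

theorem c1_3 (j : ℕ) (ht : t = 2 * u + 2 * j + 1) (hj : j < u) (hx : x = 3 * u + 1 + j) :
    c1 u t = .inr (x, false) := by
  unfold c1
  rw [if_neg (by omega), if_neg (by omega)]
  congr 2
  omega

end

theorem fam1 (u : ℕ) (hu : 1 ≤ u) : Solvable (4 * u) := by
  refine solvable_even (4 * u) (4 * u + 1) (by omega) rfl (by omega)
    (tri (.inl 0) (.inr (3 * u, false)) (.inr (u, true))) (b1 u) (c1 u) ?_ ?_ ?_ ?_ ?_
  · rintro x hx (_ | _)
    · -- level 0
      obtain h | h | h | h | h : x < u ∨ (u ≤ x ∧ x < 2 * u) ∨ (2 * u ≤ x ∧ x < 3 * u) ∨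
        x = 3 * u ∨ (3 * u < x ∧ x ≤ 4 * u) := by omega
      · exact oB (2 * x + 1) (by omega) (b1_1 x (by omega) (by omega) (by omega))
      · exact oB (2 * (2 * u - 1 - x)) (by omega) (b1_0 (2 * u - 1 - x) (by omega) (by omega) (by omega))
      · exact oC (2 * (x - 2 * u)) (by omega) (c1_0 (x - 2 * u) (by omega) (by omega) (by omega))
      · subst h; exact (oA _ _ _).2.1
      · exact oC (2 * u + 2 * (x - 3 * u - 1) + 1) (by omega) (c1_3 (x - 3 * u - 1) (by omega) (by omega) (by omega))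
    · obtain h | h | h | h | h : x < u ∨ x = u ∨ (u < x ∧ x ≤ 2 * u) ∨ (2 * u < x ∧ x ≤ 3 * u) ∨
        (3 * u < x ∧ x ≤ 4 * u) := by omega
      · exact oB (2 * u + 2 * (u - 1 - x)) (by omega) (b1_2 (u - 1 - x) (by omega) (by omega) (by omega))
      · subst h; exact (oA _ _ _).2.2
      · exact oB (2 * u + 2 * (x - u - 1) + 1) (by omega) (b1_3 (x - u - 1) (by omega) (by omega) (by omega))
      · exact oC (2 * u + 2 * (3 * u - x)) (by omega) (c1_2 (3 * u - x) (by omega) (by omega) (by omega))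
      · exact oC (2 * (4 * u - x) + 1) (by omega) (c1_1 (4 * u - x) (by omega) (by omega) (by omega))
  · exact (oA _ _ _).1
  · rintro (_ | _)
    · exact ⟨_, (rA _ _ _).1⟩
    · exact ⟨_, (rA _ _ _).2.1⟩
  · rintro (_ | _) d h1 h2
    · obtain h | ⟨j, h⟩ | ⟨j, h⟩ : d = 2 * u ∨ (∃ j, d + 2 * j + 1 = 2 * u) ∨
          (∃ j, d + 2 * j + 2 = 2 * u) := by
        by_cases h : d = 2 * u
        · exact Or.inl h
        · rcases Nat.mod_two_eq_zero_or_one d with h5 | h5
          · exact Or.inr (Or.inr ⟨(2 * u - 2 - d) / 2, (by omega)⟩)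
          · exact Or.inr (Or.inl ⟨(2 * u - 1 - d) / 2, (by omega)⟩)
      · exact ⟨2 * u, 4 * u, (rC0 (c1_3 (u - 1) (by omega) (by omega) (by omega)) (c1_0 0 (by omega) (by omega) (by omega))).2, Or.inl (by omega)⟩
      · exact ⟨j, 2 * u - 1 - j, (rB (2 * j) (by omega) (b1_0 j (by omega) (by omega) (by omega)) (b1_1 j (by omega) (by omega) (by omega))).2, Or.inl (by omega)⟩
      · exact ⟨j, 2 * u - 2 - j, (rB (2 * j + 1) (by omega) (b1_1 j (by omega) (by omega) (by omega)) (b1_0 (j + 1) (by omega) (by omega) (by omega))).1, Or.inl (by omega)⟩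
    · obtain h | ⟨j, h⟩ | ⟨j, h⟩ : d = 1 ∨ (∃ j, d = 2 * j + 2) ∨ (∃ j, d = 2 * j + 3) := by
        by_cases h : d = 1
        · exact Or.inl h
        · rcases Nat.mod_two_eq_zero_or_one d with h5 | h5
          · exact Or.inr (Or.inl ⟨(d - 2) / 2, (by omega)⟩)
          · exact Or.inr (Or.inr ⟨(d - 3) / 2, (by omega)⟩)
      · exact ⟨3 * u, 3 * u + 1, (rC (2 * (u - 1) + 1) (by omega) (c1_1 (u - 1) (by omega) (by omega) (by omega))
          (c1_2 0 (by omega) (by omega) (by omega))).2, Or.inl (by omega)⟩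
      · exact ⟨u - 1 - j, u + 1 + j, (rB (2 * u + 2 * j) (by omega) (b1_2 j (by omega) (by omega) (by omega)) (b1_3 j (by omega) (by omega) (by omega))).1,
          Or.inl (by omega)⟩
      · exact ⟨u - 1 - (j + 1), u + 1 + j, (rB (2 * u + 2 * j + 1) (by omega) (b1_3 j (by omega) (by omega) (by omega))
          (b1_2 (j + 1) (by omega) (by omega) (by omega))).2, Or.inl (by omega)⟩
  · intro d hd
    obtain h | h | h | ⟨j, h, h'⟩ | ⟨j, h, h'⟩ | ⟨j, h, h'⟩ | ⟨j, h, h'⟩ : d = 0 ∨ d = 1 ∨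
        d = 2 * u + 1 ∨
        (∃ j, j < u ∧ d + 2 * j = 2 * u) ∨ (∃ j, j + 1 < u ∧ d + 2 * j + 1 = 2 * u) ∨
        (∃ j, j < u ∧ d + 2 * j = 4 * u) ∨ (∃ j, j + 1 < u ∧ d + 2 * j + 1 = 4 * u) := by
      by_cases h0 : d = 0
      · exact Or.inl h0
      by_cases h1 : d = 1
      · exact Or.inr (Or.inl h1)
      by_cases h2 : d = 2 * u + 1
      · exact Or.inr (Or.inr (Or.inl h2))
      rcases Nat.mod_two_eq_zero_or_one d with h5 | h5
      · by_cases h3 : d ≤ 2 * u
        · exact Or.inr (Or.inr (Or.inr (Or.inl ⟨(2 * u - d) / 2, (by omega), (by omega)⟩)))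
        · exact Or.inr (Or.inr (Or.inr (Or.inr (Or.inr (Or.inl ⟨(4 * u - d) / 2, (by omega), (by omega)⟩)))))
      · by_cases h3 : d ≤ 2 * u
        · exact Or.inr (Or.inr (Or.inr (Or.inr (Or.inl ⟨(2 * u - 1 - d) / 2, (by omega), (by omega)⟩))))
        · exact Or.inr (Or.inr (Or.inr (Or.inr (Or.inr (Or.inr ⟨(4 * u - 1 - d) / 2, (by omega), (by omega)⟩)))))
    · exact ⟨u - 1, u - 1, (rB (2 * (u - 1) + 1) (by omega) (b1_1 (u - 1) (by omega) (by omega) (by omega)) (b1_2 0 (by omega) (by omega) (by omega))).1,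
        Or.inl (by omega)⟩
    · exact ⟨2 * u - 1, 2 * u, (rB0 (b1_3 (u - 1) (by omega) (by omega) (by omega)) (b1_0 0 (by omega) (by omega) (by omega))).2, Or.inl (by omega)⟩
    · exact ⟨3 * u, u, (rA _ _ _).2.2, Or.inr (by omega)⟩
    · exact ⟨2 * u + j, 4 * u - j, (rC (2 * j) (by omega) (c1_0 j (by omega) (by omega) (by omega)) (c1_1 j (by omega) (by omega) (by omega))).1, Or.inl (by omega)⟩
    · exact ⟨2 * u + (j + 1), 4 * u - j, (rC (2 * j + 1) (by omega) (c1_1 j (by omega) (by omega) (by omega))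
        (c1_0 (j + 1) (by omega) (by omega) (by omega))).2, Or.inl (by omega)⟩
    · exact ⟨3 * u + 1 + j, 3 * u - j, (rC (2 * u + 2 * j) (by omega) (c1_2 j (by omega) (by omega) (by omega)) (c1_3 j (by omega) (by omega) (by omega))).2,
        Or.inr (by omega)⟩
    · exact ⟨3 * u + 1 + j, 3 * u - (j + 1), (rC (2 * u + 2 * j + 1) (by omega) (c1_3 j (by omega) (by omega) (by omega))
        (c1_2 (j + 1) (by omega) (by omega) (by omega))).1, Or.inr (by omega)⟩

/-! ### `s = 4 w + 2` -/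

def b2 (w t : ℕ) : N :=
  if t = 4 * w + 1 then .inr (2 * w + 1, false)
  else if t < 2 * w then (if t % 2 = 0 then .inr (2 * w - t / 2, false) else .inr (t / 2, false))
  else (if t % 2 = 0 then .inr (w + (t - 2 * w) / 2, true)
    else .inr (w - 1 - (t - 2 * w) / 2, true))

def c2 (w t : ℕ) : N :=
  if t = 4 * w + 1 then .inr (w, false)
  else if t < 2 * w then (if t % 2 = 0 then .inr (3 * w + 1 - t / 2, false)
    else .inr (3 * w + 3 + t / 2, true))
  else (if t % 2 = 0 then .inr (2 * w + 1 + (t - 2 * w) / 2, true)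
    else .inr (4 * w + 2 - (t - 2 * w) / 2, false))

section
variable {w t x : ℕ}

theorem b2_e (ht : t = 4 * w + 1) (hx : x = 2 * w + 1) : b2 w t = .inr (x, false) := by
  unfold b2
  rw [if_pos ht, hx]

theorem b2_0 (j : ℕ) (ht : t = 2 * j) (hj : j < w) (hx : x + j = 2 * w) :
    b2 w t = .inr (x, false) := by
  unfold b2
  rw [if_neg (by omega), if_pos (by omega), if_pos (by omega)]
  congr 2
  omega

theorem b2_1 (j : ℕ) (ht : t = 2 * j + 1) (hj : j < w) (hx : x = j) :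
    b2 w t = .inr (x, false) := by
  unfold b2
  rw [if_neg (by omega), if_pos (by omega), if_neg (by omega)]
  congr 2
  omega

theorem b2_2 (j : ℕ) (ht : t = 2 * w + 2 * j) (hj : j ≤ w) (hx : x = w + j) :
    b2 w t = .inr (x, true) := by
  unfold b2
  rw [if_neg (by omega), if_neg (by omega), if_pos (by omega)]
  congr 2
  omega

theorem b2_3 (j : ℕ) (ht : t = 2 * w + 2 * j + 1) (hj : j < w) (hx : x + j + 1 = w) :
    b2 w t = .inr (x, true) := by
  unfold b2
  rw [if_neg (by omega), if_neg (by omega), if_neg (by omega)]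
  congr 2
  omega

theorem c2_e (ht : t = 4 * w + 1) (hx : x = w) : c2 w t = .inr (x, false) := by
  unfold c2
  rw [if_pos ht, hx]

theorem c2_0 (j : ℕ) (ht : t = 2 * j) (hj : j < w) (hx : x + j = 3 * w + 1) :
    c2 w t = .inr (x, false) := by
  unfold c2
  rw [if_neg (by omega), if_pos (by omega), if_pos (by omega)]
  congr 2
  omega

theorem c2_1 (j : ℕ) (ht : t = 2 * j + 1) (hj : j < w) (hx : x = 3 * w + 3 + j) :
    c2 w t = .inr (x, true) := by
  unfold c2
  rw [if_neg (by omega), if_pos (by omega), if_neg (by omega)]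
  congr 2
  omega

theorem c2_2 (j : ℕ) (ht : t = 2 * w + 2 * j) (hj : j ≤ w) (hx : x = 2 * w + 1 + j) :
    c2 w t = .inr (x, true) := by
  unfold c2
  rw [if_neg (by omega), if_neg (by omega), if_pos (by omega)]
  congr 2
  omega

theorem c2_3 (j : ℕ) (ht : t = 2 * w + 2 * j + 1) (hj : j < w) (hx : x + j = 4 * w + 2) :
    c2 w t = .inr (x, false) := by
  unfold c2
  rw [if_neg (by omega), if_neg (by omega), if_neg (by omega)]
  congr 2
  omega

end

theorem fam2 (w : ℕ) (hw : 1 ≤ w) : Solvable (4 * w + 2) := by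
  refine solvable_even (4 * w + 2) (4 * w + 3) (by omega) rfl (by omega)
    (tri (.inl 0) (.inr (3 * w + 2, false)) (.inr (3 * w + 2, true))) (b2 w) (c2 w) ?_ ?_ ?_ ?_ ?_
  · rintro x hx (_ | _)
    · -- level 0
      obtain h | h | h | h | h | h | h : x < w ∨ x = w ∨ (w < x ∧ x ≤ 2 * w) ∨ x = 2 * w + 1 ∨
        (2 * w + 2 ≤ x ∧ x ≤ 3 * w + 1) ∨
        x = 3 * w + 2 ∨ (3 * w + 3 ≤ x ∧ x ≤ 4 * w + 2) := by omega
      · exact oB (2 * x + 1) (by omega) (b2_1 x (by omega) (by omega) (by omega))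
      · exact oC (4 * w + 1) (by omega) (c2_e (by omega) (by omega))
      · exact oB (2 * (2 * w - x)) (by omega) (b2_0 (2 * w - x) (by omega) (by omega) (by omega))
      · exact oB (4 * w + 1) (by omega) (b2_e (by omega) (by omega))
      · exact oC (2 * (3 * w + 1 - x)) (by omega) (c2_0 (3 * w + 1 - x) (by omega) (by omega) (by omega))
      · subst h; exact (oA _ _ _).2.1
      · exact oC (2 * w + 2 * (4 * w + 2 - x) + 1) (by omega) (c2_3 (4 * w + 2 - x) (by omega) (by omega) (by omega))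
    · obtain h | h | h | h | h : x < w ∨ (w ≤ x ∧ x ≤ 2 * w) ∨ (2 * w < x ∧ x ≤ 3 * w + 1) ∨
        x = 3 * w + 2 ∨ (3 * w + 3 ≤ x ∧ x ≤ 4 * w + 2) := by omega
      · exact oB (2 * w + 2 * (w - 1 - x) + 1) (by omega) (b2_3 (w - 1 - x) (by omega) (by omega) (by omega))
      · exact oB (2 * w + 2 * (x - w)) (by omega) (b2_2 (x - w) (by omega) (by omega) (by omega))
      · exact oC (2 * w + 2 * (x - 2 * w - 1)) (by omega) (c2_2 (x - 2 * w - 1) (by omega) (by omega) (by omega))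
      · subst h; exact (oA _ _ _).2.2
      · exact oC (2 * (x - 3 * w - 3) + 1) (by omega) (c2_1 (x - 3 * w - 3) (by omega) (by omega) (by omega))
  · exact (oA _ _ _).1
  · rintro (_ | _)
    · exact ⟨_, (rA _ _ _).1⟩
    · exact ⟨_, (rA _ _ _).2.1⟩
  · rintro (_ | _) d h1 h2
    · obtain h | h | ⟨j, h⟩ | ⟨j, h⟩ : d = 1 ∨ d = 2 * w + 1 ∨ (∃ j, d + 2 * j = 2 * w) ∨
          (∃ j, d + 2 * j + 1 = 2 * w) := by
        by_cases h : d = 1
        · exact Or.inl h
        by_cases h' : d = 2 * w + 1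
        · exact Or.inr (Or.inl h')
        · rcases Nat.mod_two_eq_zero_or_one d with h5 | h5
          · exact Or.inr (Or.inr (Or.inl ⟨(2 * w - d) / 2, (by omega)⟩))
          · exact Or.inr (Or.inr (Or.inr ⟨(2 * w - 1 - d) / 2, (by omega)⟩))
      · exact ⟨2 * w, 2 * w + 1, (rB0 (b2_e (by omega) (by omega)) (b2_0 0 (by omega) (by omega) (by omega))).2, Or.inl (by omega)⟩
      · exact ⟨w, 3 * w + 1, (rC0 (c2_e (by omega) (by omega)) (c2_0 0 (by omega) (by omega) (by omega))).1, Or.inl (by omega)⟩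
      · exact ⟨j, 2 * w - j, (rB (2 * j) (by omega) (b2_0 j (by omega) (by omega) (by omega)) (b2_1 j (by omega) (by omega) (by omega))).2, Or.inl (by omega)⟩
      · by_cases hj : d = 1
        · exact ⟨2 * w, 2 * w + 1, (rB0 (b2_e (by omega) (by omega)) (b2_0 0 (by omega) (by omega) (by omega))).2, Or.inl (by omega)⟩
        · exact ⟨j, 2 * w - (j + 1), (rB (2 * j + 1) (by omega) (b2_1 j (by omega) (by omega) (by omega))
            (b2_0 (j + 1) (by omega) (by omega) (by omega))).1, Or.inl (by omega)⟩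
    · obtain h | ⟨j, h⟩ | ⟨j, h⟩ : d = 2 * w + 1 ∨ (∃ j, j < w ∧ d = 2 * j + 1) ∨
          (∃ j, j < w ∧ d = 2 * j + 2) := by
        by_cases h : d = 2 * w + 1
        · exact Or.inl h
        · rcases Nat.mod_two_eq_zero_or_one d with h5 | h5
          · exact Or.inr (Or.inr ⟨(d - 2) / 2, (by omega), (by omega)⟩)
          · exact Or.inr (Or.inl ⟨(d - 1) / 2, (by omega), (by omega)⟩)
      · exact ⟨2 * w + 1, 4 * w + 2, (rC (2 * (w - 1) + 1) (by omega) (c2_1 (w - 1) (by omega) (by omega) (by omega))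
          (c2_2 0 (by omega) (by omega) (by omega))).2, Or.inl (by omega)⟩
      · exact ⟨w - 1 - j, w + j, (rB (2 * w + 2 * j) (by omega) (b2_2 j (by omega) (by omega) (by omega)) (b2_3 j (by omega) (by omega) (by omega))).2,
          Or.inl (by omega)⟩
      · exact ⟨w - 1 - j, w + (j + 1), (rB (2 * w + 2 * j + 1) (by omega) (b2_3 j (by omega) (by omega) (by omega))
          (b2_2 (j + 1) (by omega) (by omega) (by omega))).1, Or.inl (by omega)⟩
  · intro d hd
    obtain h | h | h | h | ⟨j, h, h'⟩ | ⟨j, h, h'⟩ | ⟨j, h, h'⟩ | ⟨j, h, h'⟩ : d = 0 ∨ d = 1 ∨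
        d = 2 * w + 1 ∨ d = 4 * w + 2 ∨
        (∃ j, j < w ∧ d = 2 * j + 2) ∨ (∃ j, j + 1 < w ∧ d = 2 * j + 3) ∨
        (∃ j, j < w ∧ d = 2 * w + 2 + 2 * j) ∨ (∃ j, j < w ∧ d = 2 * w + 3 + 2 * j) := by
      by_cases h0 : d = 0
      · exact Or.inl h0
      by_cases h1 : d = 1
      · exact Or.inr (Or.inl h1)
      by_cases h2 : d = 2 * w + 1
      · exact Or.inr (Or.inr (Or.inl h2))
      by_cases h2 : d = 4 * w + 2
      · exact Or.inr (Or.inr (Or.inr (Or.inl h2)))
      rcases Nat.mod_two_eq_zero_or_one d with h5 | h5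
      · by_cases h3 : d ≤ 2 * w
        · exact Or.inr (Or.inr (Or.inr (Or.inr (Or.inl ⟨(d - 2) / 2, (by omega), (by omega)⟩))))
        · exact Or.inr (Or.inr (Or.inr (Or.inr (Or.inr (Or.inr (Or.inl
            ⟨(d - 2 * w - 2) / 2, (by omega), (by omega)⟩))))))
      · by_cases h3 : d ≤ 2 * w
        · exact Or.inr (Or.inr (Or.inr (Or.inr (Or.inr (Or.inl ⟨(d - 3) / 2, (by omega), (by omega)⟩)))))
        · exact Or.inr (Or.inr (Or.inr (Or.inr (Or.inr (Or.inr (Or.inr
            ⟨(d - 2 * w - 3) / 2, (by omega), (by omega)⟩))))))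
    · exact ⟨3 * w + 2, 3 * w + 2, (rA _ _ _).2.2, Or.inl (by omega)⟩
    · exact ⟨w - 1, w, (rB (2 * (w - 1) + 1) (by omega) (b2_1 (w - 1) (by omega) (by omega) (by omega)) (b2_2 0 (by omega) (by omega) (by omega))).1,
        Or.inl (by omega)⟩
    · exact ⟨w, 3 * w + 1, (rC (2 * w + 2 * w) (by omega) (c2_2 w (by omega) (by omega) (by omega)) (c2_e (by omega) (by omega))).2, Or.inl (by omega)⟩
    · exact ⟨2 * w + 1, 2 * w, (rB (2 * w + 2 * w) (by omega) (b2_2 w (by omega) (by omega) (by omega)) (b2_e (by omega) (by omega))).2, Or.inr (by omega)⟩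
    · exact ⟨3 * w + 1 - j, 3 * w + 3 + j, (rC (2 * j) (by omega) (c2_0 j (by omega) (by omega) (by omega)) (c2_1 j (by omega) (by omega) (by omega))).1,
        Or.inl (by omega)⟩
    · exact ⟨3 * w + 1 - (j + 1), 3 * w + 3 + j, (rC (2 * j + 1) (by omega) (c2_1 j (by omega) (by omega) (by omega))
        (c2_0 (j + 1) (by omega) (by omega) (by omega))).2, Or.inl (by omega)⟩
    · exact ⟨4 * w + 2 - j, 2 * w + 1 + j, (rC (2 * w + 2 * j) (by omega) (c2_2 j (by omega) (by omega) (by omega))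
        (c2_3 j (by omega) (by omega) (by omega))).2, Or.inr (by omega)⟩
    · exact ⟨4 * w + 2 - j, 2 * w + 1 + (j + 1), (rC (2 * w + 2 * j + 1) (by omega) (c2_3 j (by omega) (by omega) (by omega))
        (c2_2 (j + 1) (by omega) (by omega) (by omega))).1, Or.inr (by omega)⟩

/-! ### `s = 2 h + 1` -/

def c3 (h t : ℕ) : N :=
  if t = 0 then .inl 1
  else if t % 2 = 1 then .inr (t / 2, false)
  else .inr (h - t / 2, true)

def b3 (h t : ℕ) : N :=
  if t = h then .inl 2
  else if t < h then (if t % 2 = 0 then .inr (h + t / 2, false)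
    else .inr (2 * h - 1 - t / 2, false))
  else (if (2 * h - t) % 2 = 0 then .inr (2 * h - (2 * h - t) / 2, true)
    else .inr (h + 1 + (2 * h - t) / 2, true))

section
variable {h t x : ℕ}

theorem c3_e (ht : t = 0) : c3 h t = .inl 1 := by
  unfold c3
  rw [if_pos ht]

theorem c3_0 (j : ℕ) (ht : t = 2 * j + 1) (hx : x = j) : c3 h t = .inr (x, false) := by
  unfold c3
  rw [if_neg (by omega), if_pos (by omega)]
  congr 2
  omega

theorem c3_1 (j : ℕ) (ht : t = 2 * j + 2) (hx : x + j + 1 = h) : c3 h t = .inr (x, true) := by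
  unfold c3
  rw [if_neg (by omega), if_neg (by omega)]
  congr 2
  omega

theorem b3_e (ht : t = h) : b3 h t = .inl 2 := by
  unfold b3
  rw [if_pos ht]

theorem b3_0 (j : ℕ) (ht : t = 2 * j) (hj : 2 * j < h) (hx : x = h + j) :
    b3 h t = .inr (x, false) := by
  unfold b3
  rw [if_neg (by omega), if_pos (by omega), if_pos (by omega)]
  congr 2
  omega

theorem b3_1 (j : ℕ) (ht : t = 2 * j + 1) (hj : 2 * j + 1 < h) (hx : x + j + 1 = 2 * h) :
    b3 h t = .inr (x, false) := by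
  unfold b3
  rw [if_neg (by omega), if_pos (by omega), if_neg (by omega)]
  congr 2
  omega

theorem b3_2 (j : ℕ) (ht : t + 2 * j = 2 * h) (hj : 2 * j < h) (hx : x + j = 2 * h) :
    b3 h t = .inr (x, true) := by
  unfold b3
  rw [if_neg (by omega), if_neg (by omega), if_pos (by omega)]
  congr 2
  omega

theorem b3_3 (j : ℕ) (ht : t + 2 * j + 1 = 2 * h) (hj : 2 * j + 1 < h) (hx : x = h + 1 + j) :
    b3 h t = .inr (x, true) := by
  unfold b3
  rw [if_neg (by omega), if_neg (by omega), if_neg (by omega)]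
  congr 2
  omega

end

theorem fam3 (h : ℕ) (hh : 1 ≤ h) : Solvable (2 * h + 1) := by
  refine solvable_odd (2 * h + 1) h hh rfl
    (tri (.inl 0) (.inr (2 * h, false)) (.inr (h, true))) (b3 h) (c3 h) ?_ ?_ ?_ ?_ ?_
  · rintro x hx (_ | _)
    · obtain h1 | h1 | h1 | h1 : x < h ∨ (h ≤ x ∧ 2 * (x - h) < h) ∨
        (2 * h ≤ 2 * (x - h) + h ∧ x < 2 * h ∧ h ≤ 2 * (x - h)) ∨ x = 2 * h := by omega
      · exact oC (2 * x + 1) (by omega) (c3_0 x (by omega) (by omega))
      · exact oB (2 * (x - h)) (by omega) (b3_0 (x - h) (by omega) (by omega) (by omega))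
      · exact oB (2 * (2 * h - 1 - x) + 1) (by omega) (b3_1 (2 * h - 1 - x) (by omega) (by omega) (by omega))
      · subst h1; exact (oA _ _ _).2.1
    · obtain h1 | h1 | h1 | h1 : x < h ∨ x = h ∨ (h < x ∧ 2 * (x - h - 1) + 1 < h) ∨
        (h < x ∧ h ≤ 2 * (x - h - 1) + 1) := by omega
      · exact oC (2 * (h - 1 - x) + 2) (by omega) (c3_1 (h - 1 - x) (by omega) (by omega))
      · subst h1; exact (oA _ _ _).2.2
      · exact oB (2 * h - 2 * (x - h - 1) - 1) (by omega) (b3_3 (x - h - 1) (by omega) (by omega) (by omega))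
      · exact oB (2 * h - 2 * (2 * h - x)) (by omega) (b3_2 (2 * h - x) (by omega) (by omega) (by omega))
  · intro x hx
    interval_cases x
    · exact (oA _ _ _).1
    · exact oC 0 (by omega) (c3_e rfl)
    · exact oB h (by omega) (b3_e rfl)
  · have hpar : ∀ n : ℕ, ∃ j, n = 2 * j ∨ n = 2 * j + 1 := fun n => ⟨n / 2, by omega⟩
    intro x hx
    interval_cases x
    · rintro (_ | _)
      · exact ⟨_, (rA _ _ _).1⟩
      · exact ⟨_, (rA _ _ _).2.1⟩
    · rintro (_ | _)
      · exact ⟨0, (rC 0 (by omega) (c3_e rfl) (c3_0 0 (by omega) (by omega))).1⟩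
      · exact ⟨0, (rC0 (c3_1 (h - 1) (by omega) (by omega)) (c3_e rfl)).2⟩
    · rintro (_ | _)
      · obtain ⟨j, hj | hj⟩ := hpar (h - 1)
        · exact ⟨h + j, (rB (h - 1) (by omega) (b3_0 j (by omega) (by omega) (by omega)) (b3_e (by omega))).2⟩
        · exact ⟨2 * h - 1 - j, (rB (h - 1) (by omega) (b3_1 j (by omega) (by omega) (by omega)) (b3_e (by omega))).2⟩
      · obtain ⟨j, hj | hj⟩ := hpar (h - 1)
        · exact ⟨2 * h - j, (rB h (by omega) (b3_e (by omega)) (b3_2 j (by omega) (by omega) (by omega))).1⟩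
        · exact ⟨h + 1 + j, (rB h (by omega) (b3_e (by omega)) (b3_3 j (by omega) (by omega) (by omega))).1⟩
  · have hpar : ∀ n : ℕ, ∃ j, n = 2 * j ∨ n = 2 * j + 1 := fun n => ⟨n / 2, by omega⟩
    rintro (_ | _) d h1 h2
    · obtain ⟨j, hj | hj⟩ := hpar (h - 1 - d)
      · exact ⟨h + j, 2 * h - 1 - j, (rB (2 * j) (by omega) (b3_0 j (by omega) (by omega) (by omega)) (b3_1 j (by omega) (by omega) (by omega))).1, Or.inl (by omega)⟩
      · exact ⟨h + (j + 1), 2 * h - 1 - j, (rB (2 * j + 1) (by omega) (b3_1 j (by omega) (by omega) (by omega))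
          (b3_0 (j + 1) (by omega) (by omega) (by omega))).2, Or.inl (by omega)⟩
    · obtain ⟨j, hj | hj⟩ := hpar (h - 1 - d)
      · exact ⟨h + 1 + j, 2 * h - j, (rB (2 * h - 2 * j - 1) (by omega) (b3_3 j (by omega) (by omega) (by omega))
          (b3_2 j (by omega) (by omega) (by omega))).1, Or.inl (by omega)⟩
      · exact ⟨h + 1 + j, 2 * h - (j + 1), (rB (2 * h - 2 * j - 2) (by omega) (b3_2 (j + 1) (by omega) (by omega) (by omega))
          (b3_3 j (by omega) (by omega) (by omega))).2, Or.inl (by omega)⟩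
  · intro d hd
    obtain h1 | h1 | ⟨j, h1, h2⟩ | ⟨j, h1, h2⟩ | ⟨j, h1, h2⟩ | ⟨j, h1, h2⟩ : d = h ∨ d = h + 1 ∨
        (∃ j, j < h ∧ d + 2 * j + 1 = h) ∨ (∃ j, j < h ∧ d + 2 * j + 1 = h + (2 * h + 1)) ∨
        (∃ j, j + 1 < h ∧ d + 2 * j + 2 = h) ∨
        (∃ j, j + 1 < h ∧ d + 2 * j + 2 = h + (2 * h + 1)) := by
      by_cases h1 : d = h
      · exact Or.inl h1
      by_cases h2 : d = h + 1
      · exact Or.inr (Or.inl h2)
      by_cases h3 : d < h
      · rcases Nat.mod_two_eq_zero_or_one (h - 1 - d) with h5 | h5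
        · exact Or.inr (Or.inr (Or.inl ⟨(h - 1 - d) / 2, (by omega), (by omega)⟩))
        · exact Or.inr (Or.inr (Or.inr (Or.inr (Or.inl ⟨(h - 2 - d) / 2, (by omega), (by omega)⟩))))
      · rcases Nat.mod_two_eq_zero_or_one (3 * h - d) with h5 | h5
        · exact Or.inr (Or.inr (Or.inr (Or.inl ⟨(3 * h - d) / 2, (by omega), (by omega)⟩)))
        · exact Or.inr (Or.inr (Or.inr (Or.inr (Or.inr ⟨(3 * h - 1 - d) / 2, (by omega), (by omega)⟩))))
    · exact ⟨h, 2 * h, (rB0 (b3_2 0 (by omega) (by omega) (by omega)) (b3_0 0 (by omega) (by omega) (by omega))).2, Or.inl (by omega)⟩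
    · exact ⟨2 * h, h, (rA _ _ _).2.2, Or.inr (by omega)⟩
    · exact ⟨j, h - 1 - j, (rC (2 * j + 1) (by omega) (c3_0 j (by omega) (by omega)) (c3_1 j (by omega) (by omega))).1, Or.inl (by omega)⟩
    · exact ⟨j, h - 1 - j, (rC (2 * j + 1) (by omega) (c3_0 j (by omega) (by omega)) (c3_1 j (by omega) (by omega))).1, Or.inr (by omega)⟩
    · exact ⟨j + 1, h - 1 - j, (rC (2 * j + 2) (by omega) (c3_1 j (by omega) (by omega)) (c3_0 (j + 1) (by omega) (by omega))).2, Or.inl (by omega)⟩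
    · exact ⟨j + 1, h - 1 - j, (rC (2 * j + 2) (by omega) (c3_1 j (by omega) (by omega)) (c3_0 (j + 1) (by omega) (by omega))).2, Or.inr (by omega)⟩

theorem all (s : ℕ) (hs : 3 ≤ s) : Solvable s := by
  obtain ⟨k, h | h | h⟩ : ∃ k, (s = 4 * k) ∨ (s = 4 * k + 2) ∨ (s = 2 * k + 1) := by
    rcases Nat.mod_two_eq_zero_or_one s with h | h
    · rcases Nat.mod_two_eq_zero_or_one (s / 2) with h' | h'
      · exact ⟨s / 4, by omega⟩
      · exact ⟨s / 4, by omega⟩
    · exact ⟨s / 2, by omega⟩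
  · subst h; exact fam1 k (by omega)
  · subst h; exact fam2 k (by omega)
  · subst h; exact fam3 k (by omega)

end Pool.Agent.X239.OP
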