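import Pool.Agent.X239.OP.Core

/-! MP_633541_co: rotational solutions from a base factor. -/

namespace Pool.Agent.X239.OP

/-- labels: `inl x` a fixed point, `inr (x, l)` the point `x` on level `l`. -/
abbrev N := ℕ ⊕ (ℕ × Bool)

/-- the vertex set -/
abbrev V (k m : ℕ) := ZMod k ⊕ (ZMod m × Bool)

/-- the label shifted by `i` -/
def emb (k m : ℕ) (i : ZMod m) : N → V k m
  | .inl x => .inl x
  | .inr (x, l) => .inr ((x : ZMod m) + i, l)

/-- `x`, `y` consecutive on the closed sequence `q` of period `n` -/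
def Con (n : ℕ) (q : ℕ → N) (x y : N) : Prop :=
  (∃ t, t + 1 < n ∧ q t = x ∧ q (t + 1) = y) ∨ (q (n - 1) = x ∧ q 0 = y)

def tri (a b c : N) : ℕ → N := fun t => if t = 0 then a else if t = 1 then b else c

def R (s : ℕ) (A B C : ℕ → N) (x y : N) : Prop :=
  Con 3 A x y ∨ Con 3 A y x ∨ Con s B x y ∨ Con s B y x ∨ Con s C x y ∨ Con s C y x

def Occ (s : ℕ) (A B C : ℕ → N) (x : N) : Prop :=
  (∃ t < 3, A t = x) ∨ (∃ t < s, B t = x) ∨ (∃ t < s, C t = x)

theorem R_symm {s : ℕ} {A B C : ℕ → N} {x y : N} (h : R s A B C x y) : R s A B C y x := by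
  unfold R at *
  tauto

theorem con_spec {n : ℕ} (hn : 0 < n) {q : ℕ → N} {x y : N} (h : Con n q x y) :
    ∃ t < n, q (t % n) = x ∧ q ((t + 1) % n) = y := by
  rcases h with ⟨t, ht, h1, h2⟩ | ⟨h1, h2⟩
  · refine ⟨t, by omega, ?_, ?_⟩
    · rw [Nat.mod_eq_of_lt (by omega)]; exact h1
    · rw [Nat.mod_eq_of_lt (by omega)]; exact h2
  · refine ⟨n - 1, by omega, ?_, ?_⟩
    · rw [Nat.mod_eq_of_lt (by omega)]; exact h1
    · rw [Nat.sub_add_cancel hn, Nat.mod_self]; exact h2

/-- what `R` gives for the shifted closed sequences -/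
theorem R_spec {s k m : ℕ} (hs : 0 < s) {A B C : ℕ → N} {x y : N} (h : R s A B C x y)
    (i : ZMod m) {u v : V k m} (hu : emb k m i x = u) (hv : emb k m i y = v) :
    (∃ t < 3, (emb k m i (A (t % 3)) = u ∧ emb k m i (A ((t + 1) % 3)) = v) ∨
        (emb k m i (A (t % 3)) = v ∧ emb k m i (A ((t + 1) % 3)) = u)) ∨
      (∃ t < s, (emb k m i (B (t % s)) = u ∧ emb k m i (B ((t + 1) % s)) = v) ∨
        (emb k m i (B (t % s)) = v ∧ emb k m i (B ((t + 1) % s)) = u)) ∨
      (∃ t < s, (emb k m i (C (t % s)) = u ∧ emb k m i (C ((t + 1) % s)) = v) ∨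
        (emb k m i (C (t % s)) = v ∧ emb k m i (C ((t + 1) % s)) = u)) := by
  subst hu hv
  rcases h with h | h | h | h | h | h
  · obtain ⟨t, ht, h1, h2⟩ := con_spec (by norm_num) h
    exact Or.inl ⟨t, ht, Or.inl ⟨by rw [h1], by rw [h2]⟩⟩
  · obtain ⟨t, ht, h1, h2⟩ := con_spec (by norm_num) h
    exact Or.inl ⟨t, ht, Or.inr ⟨by rw [h1], by rw [h2]⟩⟩
  · obtain ⟨t, ht, h1, h2⟩ := con_spec hs h
    exact Or.inr (Or.inl ⟨t, ht, Or.inl ⟨by rw [h1], by rw [h2]⟩⟩)
  · obtain ⟨t, ht, h1, h2⟩ := con_spec hs h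
    exact Or.inr (Or.inl ⟨t, ht, Or.inr ⟨by rw [h1], by rw [h2]⟩⟩)
  · obtain ⟨t, ht, h1, h2⟩ := con_spec hs h
    exact Or.inr (Or.inr ⟨t, ht, Or.inl ⟨by rw [h1], by rw [h2]⟩⟩)
  · obtain ⟨t, ht, h1, h2⟩ := con_spec hs h
    exact Or.inr (Or.inr ⟨t, ht, Or.inr ⟨by rw [h1], by rw [h2]⟩⟩)

theorem occ_spec {s k m : ℕ} {A B C : ℕ → N} {x : N} (h : Occ s A B C x)
    (i : ZMod m) {v : V k m} (hv : emb k m i x = v) :
    (∃ t < 3, emb k m i (A (t % 3)) = v) ∨ (∃ t < s, emb k m i (B (t % s)) = v) ∨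
      (∃ t < s, emb k m i (C (t % s)) = v) := by
  subst hv
  rcases h with ⟨t, ht, h⟩ | ⟨t, ht, h⟩ | ⟨t, ht, h⟩
  · exact Or.inl ⟨t, ht, by rw [Nat.mod_eq_of_lt ht, h]⟩
  · exact Or.inr (Or.inl ⟨t, ht, by rw [Nat.mod_eq_of_lt ht, h]⟩)
  · exact Or.inr (Or.inr ⟨t, ht, by rw [Nat.mod_eq_of_lt ht, h]⟩)

/-- difference `d` modulo `m` -/
theorem cast_diff {m x y d : ℕ} (h : y = x + d ∨ y + m = x + d) :
    (y : ZMod m) = (x : ZMod m) + (d : ZMod m) := by
  rcases h with h | h
  · rw [h]; push_cast; ring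
  · have : ((y + m : ℕ) : ZMod m) = ((x + d : ℕ) : ZMod m) := by rw [h]
    push_cast at this
    simpa using this

theorem same_level {s m k : ℕ} [NeZero m] {A B C : ℕ → N} {l : Bool} {a b : ZMod m} {d : ℕ}
    (hd : b - a = (d : ZMod m) ∨ a - b = (d : ZMod m))
    (h : ∃ x y, R s A B C (.inr (x, l)) (.inr (y, l)) ∧ (y = x + d ∨ y + m = x + d)) :
    ∃ (i : ZMod m) (p q : N), R s A B C p q ∧ emb k m i p = .inr (a, l) ∧
      emb k m i q = .inr (b, l) := by
  obtain ⟨x, y, hR, hxy⟩ := h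
  have hc := cast_diff hxy
  rcases hd with hd | hd
  · refine ⟨a - x, _, _, hR, ?_, ?_⟩
    · simp only [emb]; congr 2; ring
    · simp only [emb]; congr 2; rw [hc, ← hd]; ring
  · refine ⟨a - y, _, _, R_symm hR, ?_, ?_⟩
    · simp only [emb]; congr 2; ring
    · simp only [emb]; congr 2; rw [hc, ← hd]; ring

theorem mixed {s m k : ℕ} [NeZero m] {A B C : ℕ → N} {a b : ZMod m} {d : ℕ}
    (hd : b - a = (d : ZMod m))
    (h : ∃ x y, R s A B C (.inr (x, false)) (.inr (y, true)) ∧ (y = x + d ∨ y + m = x + d)) :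
    ∃ (i : ZMod m) (p q : N), R s A B C p q ∧ emb k m i p = .inr (a, false) ∧
      emb k m i q = .inr (b, true) := by
  obtain ⟨x, y, hR, hxy⟩ := h
  have hc := cast_diff hxy
  refine ⟨a - x, _, _, hR, ?_, ?_⟩
  · simp only [emb]; congr 2; ring
  · simp only [emb]; congr 2; rw [hc, ← hd]; ring

/-- every nonzero difference is `± d` with `1 ≤ d`, `2 d < m`, for `m` odd -/
theorem exists_d {m : ℕ} [NeZero m] (hm : m % 2 = 1) {a b : ZMod m} (hab : a ≠ b) :
    ∃ d, 1 ≤ d ∧ 2 * d < m ∧ (b - a = (d : ZMod m) ∨ a - b = (d : ZMod m)) := by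
  have h0 : b - a ≠ 0 := fun h => hab (sub_eq_zero.1 h).symm
  have hv : (b - a).val ≠ 0 := by
    intro h
    exact h0 ((ZMod.val_eq_zero _).1 h)
  have hlt := ZMod.val_lt (b - a)
  rcases Nat.lt_or_ge (2 * (b - a).val) m with h | h
  · exact ⟨(b - a).val, by omega, h, Or.inl (ZMod.natCast_zmod_val _).symm⟩
  · refine ⟨m - (b - a).val, by omega, by omega, Or.inr ?_⟩
    rw [Nat.cast_sub hlt.le, ZMod.natCast_self, ZMod.natCast_zmod_val]
    ring

theorem sub1 : ∀ a b : ZMod 1, a = b := by decide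

/-- Rotational solutions over `ZMod (s+1)` with one fixed point. -/
theorem solvable_even (s m : ℕ) (hs : 3 ≤ s) (hm : m = s + 1) (h2 : m % 2 = 1) (A B C : ℕ → N)
    (hocc : ∀ x < m, ∀ l, Occ s A B C (.inr (x, l))) (hocc0 : Occ s A B C (.inl 0))
    (h1 : ∀ l, ∃ y, R s A B C (.inl 0) (.inr (y, l)))
    (hd : ∀ l d, 1 ≤ d → 2 * d < m →
      ∃ x y, R s A B C (.inr (x, l)) (.inr (y, l)) ∧ (y = x + d ∨ y + m = x + d))
    (hmix : ∀ d < m, ∃ x y, R s A B C (.inr (x, false)) (.inr (y, true)) ∧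
      (y = x + d ∨ y + m = x + d)) : Solvable s := by
  haveI : NeZero m := ⟨by omega⟩
  refine op_of_seq s hs (V := V 1 m) (ι := ZMod m) ?_ ?_
    (fun i t => emb 1 m i (A (t % 3))) (fun i t => emb 1 m i (B (t % s)))
    (fun i t => emb 1 m i (C (t % s))) ?_ ?_ ?_ ?_ ?_
  · simp [V, ZMod.card]; omega
  · rw [ZMod.card, hm]
  · intro i; simp
  · intro i; simp
  · intro i; simp
  · rintro i (v | ⟨v, l⟩)
    · exact occ_spec hocc0 i (by simp only [emb]; congr 1; exact sub1 _ _)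
    · refine occ_spec (hocc (v - i).val (ZMod.val_lt _) l) i ?_
      simp [emb]
  · have main : ∀ u v : V 1 m, u ≠ v →
        ∃ (i : ZMod m) (p q : N), R s A B C p q ∧ emb 1 m i p = u ∧ emb 1 m i q = v := by
      rintro (u | ⟨a, l⟩) (v | ⟨b, l'⟩) huv
      · exact absurd (by congr 1; exact sub1 _ _) huv
      · obtain ⟨y, hy⟩ := h1 l'
        refine ⟨b - y, _, _, hy, ?_, ?_⟩
        · simp only [emb]; congr 1; exact sub1 _ _
        · simp only [emb]; congr 2; ring
      · obtain ⟨y, hy⟩ := h1 l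
        refine ⟨a - y, _, _, R_symm hy, ?_, ?_⟩
        · simp only [emb]; congr 2; ring
        · simp only [emb]; congr 1; exact sub1 _ _
      · by_cases hl : l = l'
        · subst hl
          have hab : a ≠ b := fun h => huv (by rw [h])
          obtain ⟨d, hd1, hd2, hd3⟩ := exists_d h2 hab
          exact same_level hd3 (hd l d hd1 hd2)
        · have h4 : ∀ a b : ZMod m, ∃ (i : ZMod m) (p q : N), R s A B C p q ∧
              emb 1 m i p = .inr (a, false) ∧ emb 1 m i q = .inr (b, true) := by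
            intro a b
            exact mixed (d := (b - a).val) (ZMod.natCast_zmod_val _).symm
              (hmix _ (ZMod.val_lt _))
          cases l <;> cases l'
          · exact absurd rfl hl
          · exact h4 a b
          · obtain ⟨i, p, q, hR, hp, hq⟩ := h4 b a
            exact ⟨i, q, p, R_symm hR, hq, hp⟩
          · exact absurd rfl hl
    intro u v huv
    obtain ⟨i, p, q, hR, hp, hq⟩ := main u v huv
    exact ⟨i, R_spec (by omega) hR i hp hq⟩

/-- Solutions over `ZMod s` with three fixed points, `s = 2 h + 1`; one more factor is invariant. -/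
theorem solvable_odd (s h : ℕ) (hh : 1 ≤ h) (hm : s = 2 * h + 1) (A B C : ℕ → N)
    (hocc : ∀ x < s, ∀ l, Occ s A B C (.inr (x, l)))
    (hocc0 : ∀ x < 3, Occ s A B C (.inl x))
    (h1 : ∀ x < 3, ∀ l, ∃ y, R s A B C (.inl x) (.inr (y, l)))
    (hd : ∀ l d, 1 ≤ d → d < h →
      ∃ x y, R s A B C (.inr (x, l)) (.inr (y, l)) ∧ (y = x + d ∨ y + s = x + d))
    (hmix : ∀ d < s, ∃ x y, R s A B C (.inr (x, false)) (.inr (y, true)) ∧
      (y = x + d ∨ y + s = x + d)) : Solvable s := by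
  haveI : NeZero s := ⟨by omega⟩
  have h2h : (2 : ZMod s) * h = -1 := by
    have : ((2 * h + 1 : ℕ) : ZMod s) = 0 := by rw [← hm]; exact ZMod.natCast_self s
    push_cast at this
    linear_combination this
  have hcl : ∀ l, (Sum.inr ((((s : ℕ) : ZMod s) * h : ZMod s), l) : V 3 s) =
      .inr ((((0 : ℕ) : ZMod s) * h : ZMod s), l) := by
    intro l; simp
  let fx : Bool → ℕ → V 3 s := fun l t => .inr (((t : ZMod s) * h : ZMod s), l)
  have hfx : ∀ (l : Bool) (a : ZMod s), ∃ t < s, fx l t = .inr (a, l) ∧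
      fx l (t + 1) = .inr (a + h, l) := by
    intro l a
    refine ⟨(-2 * a).val, ZMod.val_lt _, ?_, ?_⟩
    · simp only [fx, ZMod.natCast_zmod_val]
      congr 2
      linear_combination (-a) * h2h
    · simp only [fx]
      push_cast
      rw [ZMod.natCast_zmod_val]
      congr 2
      linear_combination (-a) * h2h
  refine op_of_seq s (by omega) (V := V 3 s) (ι := Option (ZMod s)) ?_ ?_
    (fun i t => match i with | none => .inl (t : ZMod 3) | some i => emb 3 s i (A (t % 3)))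
    (fun i t => match i with | none => fx false t | some i => emb 3 s i (B (t % s)))
    (fun i t => match i with | none => fx true t | some i => emb 3 s i (C (t % s)))
    ?_ ?_ ?_ ?_ ?_
  · simp [V, ZMod.card]; omega
  · simp [ZMod.card]
  · rintro (_ | i)
    · show (Sum.inl (((3 : ℕ) : ZMod 3)) : V 3 s) = Sum.inl (((0 : ℕ) : ZMod 3))
      congr 1
    · simp
  · rintro (_ | i)
    · exact hcl _
    · simp
  · rintro (_ | i)
    · exact hcl _
    · simp
  · rintro (_ | i) (v | ⟨v, l⟩)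
    · left
      refine ⟨v.val, ZMod.val_lt _, ?_⟩
      show (Sum.inl ((v.val : ZMod 3)) : V 3 s) = Sum.inl v
      rw [ZMod.natCast_zmod_val]
    · obtain ⟨t, ht, h5, -⟩ := hfx l v
      cases l
      · exact Or.inr (Or.inl ⟨t, ht, h5⟩)
      · exact Or.inr (Or.inr ⟨t, ht, h5⟩)
    · refine occ_spec (hocc0 v.val (ZMod.val_lt _)) i ?_
      simp only [emb]
      rw [ZMod.natCast_zmod_val]
    · refine occ_spec (hocc (v - i).val (ZMod.val_lt _) l) i ?_
      simp [emb]
  · have main : ∀ u v : V 3 s, u ≠ v →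
        (∃ x y : ZMod 3, u = .inl x ∧ v = .inl y) ∨
        (∃ (l : Bool) (a b : ZMod s), u = .inr (a, l) ∧ v = .inr (b, l) ∧
          (b = a + h ∨ a = b + h)) ∨
        ∃ (i : ZMod s) (p q : N), R s A B C p q ∧ emb 3 s i p = u ∧ emb 3 s i q = v := by
      rintro (u | ⟨a, l⟩) (v | ⟨b, l'⟩) huv
      · exact Or.inl ⟨u, v, rfl, rfl⟩
      · right; right
        obtain ⟨y, hy⟩ := h1 u.val (ZMod.val_lt _) l'
        refine ⟨b - y, _, _, hy, ?_, ?_⟩
        · simp only [emb]; rw [ZMod.natCast_zmod_val]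
        · simp only [emb]; congr 2; ring
      · right; right
        obtain ⟨y, hy⟩ := h1 v.val (ZMod.val_lt _) l
        refine ⟨a - y, _, _, R_symm hy, ?_, ?_⟩
        · simp only [emb]; congr 2; ring
        · simp only [emb]; rw [ZMod.natCast_zmod_val]
      · right
        by_cases hl : l = l'
        · subst hl
          have hab : a ≠ b := fun h => huv (by rw [h])
          obtain ⟨d, hd1, hd2, hd3⟩ := exists_d (by omega) hab
          rcases Nat.lt_or_ge d h with h5 | h5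
          · exact Or.inr (same_level hd3 (hd l d hd1 h5))
          · left
            have : d = h := by omega
            subst this
            refine ⟨l, a, b, rfl, rfl, ?_⟩
            rcases hd3 with h6 | h6
            · left; rw [← h6]; ring
            · right; rw [← h6]; ring
        · right
          have h4 : ∀ a b : ZMod s, ∃ (i : ZMod s) (p q : N), R s A B C p q ∧
              emb 3 s i p = .inr (a, false) ∧ emb 3 s i q = .inr (b, true) := by
            intro a b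
            exact mixed (d := (b - a).val) (ZMod.natCast_zmod_val _).symm
              (hmix _ (ZMod.val_lt _))
          cases l <;> cases l'
          · exact absurd rfl hl
          · exact h4 a b
          · obtain ⟨i, p, q, hR, hp, hq⟩ := h4 b a
            exact ⟨i, q, p, R_symm hR, hq, hp⟩
          · exact absurd rfl hl
    intro u v huv
    rcases main u v huv with ⟨x, y, rfl, rfl⟩ | ⟨l, a, b, rfl, rfl, h5⟩ | ⟨i, p, q, hR, hp, hq⟩
    · refine ⟨none, Or.inl ?_⟩
      have hxy : x ≠ y := fun h => huv (by rw [h])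
      have : ∀ x y : ZMod 3, x ≠ y → ∃ t < 3, (((t : ℕ) : ZMod 3) = x ∧ ((t + 1 : ℕ) : ZMod 3) = y) ∨
          (((t : ℕ) : ZMod 3) = y ∧ ((t + 1 : ℕ) : ZMod 3) = x) := by decide
      obtain ⟨t, ht, ⟨h6, h7⟩ | ⟨h6, h7⟩⟩ := this x y hxy
      · refine ⟨t, ht, Or.inl ⟨?_, ?_⟩⟩
        · show (Sum.inl ((t : ZMod 3)) : V 3 s) = _
          rw [h6]
        · show (Sum.inl (((t + 1 : ℕ) : ZMod 3)) : V 3 s) = _
          rw [h7]
      · refine ⟨t, ht, Or.inr ⟨?_, ?_⟩⟩
        · show (Sum.inl ((t : ZMod 3)) : V 3 s) = _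
          rw [h6]
        · show (Sum.inl (((t + 1 : ℕ) : ZMod 3)) : V 3 s) = _
          rw [h7]
    · refine ⟨none, Or.inr ?_⟩
      have h8 : ∃ t < s, (fx l t = .inr (a, l) ∧ fx l (t + 1) = .inr (b, l)) ∨
          (fx l t = .inr (b, l) ∧ fx l (t + 1) = .inr (a, l)) := by
        rcases h5 with h5 | h5
        · obtain ⟨t, ht, h6, h7⟩ := hfx l a
          exact ⟨t, ht, Or.inl ⟨h6, by rw [h7, h5]⟩⟩
        · obtain ⟨t, ht, h6, h7⟩ := hfx l b
          exact ⟨t, ht, Or.inr ⟨h6, by rw [h7, h5]⟩⟩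
      cases l
      · exact Or.inl h8
      · exact Or.inr h8
    · exact ⟨some i, R_spec (by omega) hR i hp hq⟩

end Pool.Agent.X239.OP
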